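import Pool.Agent.N805.VP.Base

/-!
# Project VP, part COV: convergence of all moments gives the covering probabilities
-/

set_option autoImplicit false

open MeasureTheory Set Filter Topology Pool.Agent.N805.VP

namespace Pool.Agent.N896.VP

theorem COV : Pool.Agent.N805.VP.S_COV := by
  intro hD hSPL hBON hDEC l J x X hX hP n a b
  obtain ⟨m, c, d, hcd, hdisj, hW⟩ := hDEC n a b
  rw [hW]
  obtain ⟨W, hWdef⟩ : ∃ W : Set ℝ, W = ⋃ i, Ico (c i) (d i) := ⟨_, rfl⟩
  rw [← hWdef]
  have hWm : MeasurableSet W := by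
    rw [hWdef]
    exact MeasurableSet.iUnion fun i => measurableSet_Ico
  have hsub : ∀ i, Ico (c i) (d i) ⊆ Icc (-(∑ j, (|c j| + |d j|))) (∑ j, (|c j| + |d j|)) := by
    intro i u hu
    have h1 : |c i| + |d i| ≤ ∑ j, (|c j| + |d j|) :=
      Finset.single_le_sum (f := fun j => |c j| + |d j|) (fun _ _ => by positivity)
        (Finset.mem_univ i)
    have h2 := neg_abs_le (c i)
    have h3 := le_abs_self (d i)
    have h4 := abs_nonneg (c i)
    have h5 := abs_nonneg (d i)
    constructor <;> linarith [hu.1, hu.2]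
  have hWb : ∃ B : ℝ, W ⊆ Icc (-B) B := by
    refine ⟨∑ j, (|c j| + |d j|), ?_⟩
    rw [hWdef]
    exact iUnion_subset hsub
  have e0 : (⋃ i ∈ (Finset.univ : Finset (Fin m)), Ico (c i) (d i)) = W := by
    rw [hWdef]
    simp
  have hmom : ∀ k, 1 ≤ k → Tendsto (fun T => mom (J T) (x T) (fun _ : Fin k => W) / X T) l
      (𝓝 (G fun _ : Fin k => W)) := by
    intro k hk
    have e : ∀ (J : Finset ℕ) (x : ℕ → ℝ), mom J x (fun _ : Fin k => W) =
        ∑ g ∈ Fintype.piFinset (fun _ : Fin k => (Finset.univ : Finset (Fin m))),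
          mom J x (fun i => Ico (c (g i)) (d (g i))) ∧
        G (fun _ : Fin k => W) =
        ∑ g ∈ Fintype.piFinset (fun _ : Fin k => (Finset.univ : Finset (Fin m))),
          G (fun i => Ico (c (g i)) (d (g i))) := by
      intro J x
      have := hSPL.1 (Fin m) J x (fun i => Ico (c i) (d i)) Finset.univ
        (fun i _ => ⟨measurableSet_Ico, _, hsub i⟩) (by simpa using hdisj) k
      rw [e0] at this
      exact this
    rw [(e ∅ fun _ => 0).2]
    have e1 : (fun T => mom (J T) (x T) (fun _ : Fin k => W) / X T) = fun T =>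
        ∑ g ∈ Fintype.piFinset (fun _ : Fin k => (Finset.univ : Finset (Fin m))),
          mom (J T) (x T) (fun i => Ico (c (g i)) (d (g i))) / X T := by
      funext T
      rw [(e (J T) (x T)).1, Finset.sum_div]
    rw [e1]
    refine tendsto_finsetSum _ fun g _ => ?_
    exact hP k hk (fun i => c (g i)) (fun i => d (g i)) fun i => hcd _
  -- partial sums
  have hSK : ∀ K : ℕ, Tendsto (fun T => -∑ k ∈ Finset.range K,
      (-1 : ℝ) ^ (k + 1) / ((k + 1).factorial : ℝ) *
        (mom (J T) (x T) (fun _ : Fin (k + 1) => W) / X T)) l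
      (𝓝 (-∑ k ∈ Finset.range K, (-1 : ℝ) ^ (k + 1) / ((k + 1).factorial : ℝ) *
        G (fun _ : Fin (k + 1) => W))) := by
    intro K
    refine (tendsto_finsetSum _ fun k _ => ?_).neg
    exact (hmom (k + 1) (by omega)).const_mul _
  have hlim : Tendsto (fun K : ℕ => -∑ k ∈ Finset.range K,
      (-1 : ℝ) ^ (k + 1) / ((k + 1).factorial : ℝ) * G (fun _ : Fin (k + 1) => W)) atTop
      (𝓝 (1 - E W)) := by
    have h1 := (Phi_summable hD (z := 1) hWm hWb).hasSum.tendsto_sum_nat
    have h2 := (tendsto_add_atTop_iff_nat 1).2 h1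
    have h3 : (fun K : ℕ => -∑ k ∈ Finset.range K,
        (-1 : ℝ) ^ (k + 1) / ((k + 1).factorial : ℝ) * G (fun _ : Fin (k + 1) => W)) =
        fun K : ℕ => 1 - ∑ k ∈ Finset.range (K + 1),
          (-1 : ℝ) ^ k / (k.factorial : ℝ) * G (fun _ : Fin k => W) := by
      funext K
      rw [Finset.sum_range_succ']
      have : (-1 : ℝ) ^ 0 / ((Nat.factorial 0 : ℕ) : ℝ) * G (fun _ : Fin 0 => W) = 1 := by
        rw [G_zero]
        simp
      rw [this]
      ring
    rw [h3]
    exact tendsto_const_nhds.sub h2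
  have hkey : ∀ K : ℕ, ∀ᶠ T in l, (Odd K → cov (J T) (x T) W / X T ≤ -∑ k ∈ Finset.range K,
      (-1 : ℝ) ^ (k + 1) / ((k + 1).factorial : ℝ) *
        (mom (J T) (x T) (fun _ : Fin (k + 1) => W) / X T)) ∧
      (Even K → -∑ k ∈ Finset.range K, (-1 : ℝ) ^ (k + 1) / ((k + 1).factorial : ℝ) *
        (mom (J T) (x T) (fun _ : Fin (k + 1) => W) / X T) ≤ cov (J T) (x T) W / X T) := by
    intro K
    filter_upwards [hX] with T hT
    obtain ⟨h1, h2⟩ := hBON (J T) (x T) W hWm hWb
    have h3 := h1 1 zero_le_one le_rfl K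
    rw [← h2] at h3
    have h4 : -∑ k ∈ Finset.range K, (-1 : ℝ) ^ (k + 1) / ((k + 1).factorial : ℝ) *
        (mom (J T) (x T) (fun _ : Fin (k + 1) => W) / X T) =
        (-∑ k ∈ Finset.range K, (-1 : ℝ) ^ (k + 1) / ((k + 1).factorial : ℝ) *
        mom (J T) (x T) (fun _ : Fin (k + 1) => W)) / X T := by
      rw [neg_div, Finset.sum_div]
      congr 1
      refine Finset.sum_congr rfl fun k _ => ?_
      rw [mul_div_assoc]
    rw [h4]
    exact ⟨fun hK => div_le_div_of_nonneg_right (h3.1 hK) hT.le,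
      fun hK => div_le_div_of_nonneg_right (h3.2 hK) hT.le⟩
  refine tendsto_order.2 ⟨fun y hy => ?_, fun y hy => ?_⟩
  · obtain ⟨K₀, hK₀⟩ := eventually_atTop.1 ((tendsto_order.1 hlim).1 y hy)
    have h1 := hK₀ (2 * K₀) (by omega)
    filter_upwards [(tendsto_order.1 (hSK (2 * K₀))).1 y h1, hkey (2 * K₀)] with T h2 h3
    exact h2.trans_le (h3.2 (even_two_mul K₀))
  · obtain ⟨K₀, hK₀⟩ := eventually_atTop.1 ((tendsto_order.1 hlim).2 y hy)
    have h1 := hK₀ (2 * K₀ + 1) (by omega)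
    filter_upwards [(tendsto_order.1 (hSK (2 * K₀ + 1))).2 y h1, hkey (2 * K₀ + 1)] with T h2 h3
    exact (h3.1 ⟨K₀, rfl⟩).trans_lt h2

end Pool.Agent.N896.VP
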